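import Pool.Agent.K6.H28.NW.Defs

/-!
# Motivic homology of varieties over a finite field in a fixed negative weight: proofs
-/

set_option autoImplicit false
set_option linter.unusedVariables false

namespace Pool.Agent.K6.H28.NW

theorem IsAdd.map_zero {G H : Type} [AddCommGroup G] [AddCommGroup H] {f : G → H} (h : IsAdd f) :
    f 0 = 0 := by
  have := h 0 0
  rw [add_zero] at this
  exact left_eq_add.1 this

/-- The homology of `A` is zero in the degrees `i ≤ s`. -/
def Null (S : Strata) (A : S.C) (s : ℤ) : Prop := ∀ i : ℤ, i ≤ s → ∀ x : S.M A i, x = 0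

section

variable {S : Strata} (hS : IsStrata S)

theorem gen_dominates {S' : Strata} {Y : S'.C} {Z : S.C} {d s : ℤ} (hD : Dominates S' Y S Z d)
    (h : GenZero S' Y d s) : GenZero S Z d s := by
  intro B hB i hi x
  obtain ⟨B', hB', hD⟩ := hD B hB
  obtain ⟨α, hα⟩ := hD i
  obtain ⟨B'', h'', hB'', h0⟩ := h B' hB' i hi (α x)
  obtain ⟨B₁, h₁, hB₁, β, hβ, hβ'⟩ := hα B'' h'' hB''
  exact ⟨B₁, h₁, hB₁, by rw [← hβ', h0, hβ.map_zero]⟩

theorem gen_mono {A : S.C} {d s s' : ℤ} (hs : s' ≤ s) (h : GenZero S A d s) : GenZero S A d s' :=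
  fun B hB i hi x => h B hB i (hi.trans hs) x

include hS

theorem dies {X : S.C} {e s : ℤ} (hX : Null S X s) (hG : GenZero S X e (s + 1)) {B : S.C}
    (hB : S.dim (X ⊓ B) < e) (i : ℤ) (hi : i ≤ s) (a : S.M (X ⊓ B) i) :
    ∃ (B' : S.C) (h : B ≤ B'), S.dim (X ⊓ B') < e ∧ S.inc (inf_le_inf_left X h) i a = 0 := by
  have h1 : S.inc (inf_le_left : X ⊓ B ≤ X) i a = 0 := hX _ hi _
  obtain ⟨y, rfl⟩ := (hS.exact_Z X B i a).1 h1
  obtain ⟨B', h, hB', h0⟩ := hG B hB (i + 1) (by omega) y
  refine ⟨B', h, hB', ?_⟩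
  rw [← hS.del_res X h, h0, (hS.del X B' i).map_zero]

theorem closed_gen {X Z : S.C} {d s : ℤ} (hX : Null S X s) (hG : GenZero S X (d + 1) (s + 1))
    (hZX : Z ≤ X) (hZ : S.dim Z ≤ d) (h0 : ∀ C, C ≤ X → S.dim C < d → Null S C s) :
    GenZero S Z d s := by
  intro B hB i hi x
  obtain ⟨i', rfl⟩ : ∃ i', i = i' + 1 := ⟨i - 1, by ring⟩
  have h1 : S.del Z B i' x = 0 := h0 _ (inf_le_left.trans hZX) hB _ (by omega) _
  obtain ⟨a, rfl⟩ := (hS.exact_O Z B i' x).1 h1
  have hZ' : Z ≤ X ⊓ Z := le_inf hZX le_rfl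
  have hd : S.dim (X ⊓ Z) < d + 1 := lt_of_le_of_lt (hS.dim_mono inf_le_right) (by omega)
  obtain ⟨D, hZD, hD, hz⟩ := dies hS hX hG hd (i' + 1) hi (S.inc hZ' (i' + 1) a)
  have hZD' : Z ≤ X ⊓ D := le_inf hZX hZD
  rw [hS.inc_inc hZ' (inf_le_inf_left X hZD) hZD'] at hz
  obtain ⟨B', hB', hd', hbij⟩ := hS.components hZD' B d (by omega) hB
  refine ⟨B', hB', hd', ?_⟩
  rw [hS.j_res]
  apply (hbij (i' + 1)).1
  rw [← hS.j_push, hz, (hS.j _ _ _).map_zero, (hS.push _ _ _).map_zero]

theorem null_of_gen {Z : S.C} {d s : ℤ} (hd : 0 ≤ d) (hG : GenZero S Z d s)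
    (h0 : ∀ C, C ≤ Z → S.dim C < d → Null S C s) : Null S Z s := by
  intro i hi x
  have hb : S.dim (Z ⊓ ⊥) < d := by rw [inf_bot_eq, hS.dim_bot]; omega
  obtain ⟨B', h, hB', h1⟩ := hG ⊥ hb i hi (S.j Z ⊥ i x)
  rw [hS.j_res] at h1
  obtain ⟨c, rfl⟩ := (hS.exact_M Z B' i x).1 h1
  rw [h0 _ inf_le_left hB' i hi c, (hS.inc _ _).map_zero]

theorem open_zero {Z B : S.C} {i : ℤ} (hZ : ∀ a : S.M Z i, a = 0)
    (hB : ∀ c : S.M (Z ⊓ B) (i - 1), c = 0) (x : S.O Z B i) : x = 0 := by
  obtain ⟨i', rfl⟩ : ∃ i', i = i' + 1 := ⟨i - 1, by ring⟩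
  rw [add_sub_cancel_right] at hB
  obtain ⟨a, rfl⟩ := (hS.exact_O Z B i' x).1 (hB _)
  rw [hZ a, (hS.j _ _ _).map_zero]

theorem gen_of_open {Z : S.C} {d s : ℤ}
    (h : ∀ B, S.dim (Z ⊓ B) < d → ∀ i : ℤ, i ≤ s → ∀ x : S.O Z B i, x = 0) : GenZero S Z d s :=
  fun B hB i hi x => ⟨B, le_rfl, hB, by rw [h B hB i hi x, (hS.res _ _ _).map_zero]⟩

theorem gen_residues {X H : S.C} {e s : ℤ} (hR : Residues S X H e)
    (hG : GenZero S X (e + 1) (s + 1)) : GenZero S H e s := by
  intro B hB i hi x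
  obtain ⟨B₁, D, h₁, hD, hB₁, hDe, y, hy⟩ := hR B hB i x
  obtain ⟨D', hDD', hD', h0⟩ := hG D (by omega) (i + 1) (by omega) y
  have h1 : S.inc (inf_le_inf_left X hDD') i (S.del X D i y) = 0 := by
    rw [← hS.del_res X hDD', h0, (hS.del _ _ _).map_zero]
  have hH' : H ≤ X ⊓ D' := hD.trans (inf_le_inf_left X hDD')
  have h2 : S.push hH' B₁ i (S.res H h₁ i x) = 0 := by
    rw [← hS.push_push hD (inf_le_inf_left X hDD') hH', ← hy, ← hS.j_push, h1,
      (hS.j _ _ _).map_zero]
  obtain ⟨B₂, hB₂, hd, hbij⟩ := hS.components hH' B₁ e (by omega) hB₁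
  refine ⟨B₂, h₁.trans hB₂, hd, ?_⟩
  apply (hbij i).1
  rw [(hS.push _ _ _).map_zero, ← hS.res_res H h₁ hB₂ (h₁.trans hB₂), ← hS.push_res, h2,
    (hS.res _ _ _).map_zero]

end

variable {U : Family} {w : ℤ} (hU : IsUniverse U w)

/-- The homology of all closed subsets of dimension at most `a` is zero in the degrees `i ≤ s`. -/
def ClosedZero (U : Family) (a s : ℤ) : Prop :=
  ∀ (t : U.I) (Z : (U.S t).C), Z ≤ U.Y t → (U.S t).dim Z ≤ a → Null (U.S t) Z s

include hU

theorem closed_neg {a s : ℤ} (ha : a < 0) : ClosedZero U a s :=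
  fun t Z _ hZ i _ x => (hU.strata t).empty Z (by omega) i x

theorem rational_down {e s : ℤ} (he : 0 ≤ e) (h : RationalZero U (e + 1) (s + 1)) :
    RationalZero U e s := by
  intro n hn hd
  obtain ⟨n', hn', hd'⟩ := hU.space (e + 1) (by omega)
  obtain ⟨H, -, -, hD, hR⟩ := hU.hyperplane n n' hn hn' (by rw [hd, hd'])
  rw [hd] at hD hR
  exact gen_dominates hD (gen_residues (hU.strata n') hR (h n' hn' hd'))

theorem rational_le {e : ℤ} (he : 0 ≤ e) (k : ℕ) (h : ∀ s, RationalZero U (e + k) s) (s : ℤ) :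
    RationalZero U e s := by
  induction k generalizing s with
  | zero => simpa using h s
  | succ k ih =>
    apply ih
    intro s
    apply rational_down hU (by omega)
    have := h (s + 1)
    push_cast at this
    rw [add_assoc]
    exact this

/-- From the models to all closed subsets of the next dimension. -/
theorem closed_succ {a s : ℤ} (ha : 0 ≤ a) (h : ClosedZero U (a - 1) s)
    (hY : ∀ t, U.d t = a → GenZero (U.S t) (U.Y t) a s) : ClosedZero U a s := by
  intro t Z hZ hd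
  obtain ⟨t', ht', hD⟩ := hU.models t Z a hZ ha hd
  exact null_of_gen (hU.strata t) ha (gen_dominates hD (hY t' ht'))
    fun C hC hCd => h t C (hC.trans hZ) (by omega)

/-- An induction on the dimension. -/
theorem closed_induction {N s : ℤ}
    (h : ∀ a, 0 ≤ a → a ≤ N → ClosedZero U (a - 1) s → ClosedZero U a s) : ClosedZero U N s := by
  have key : ∀ k : ℕ, (k : ℤ) - 1 ≤ N → ClosedZero U ((k : ℤ) - 1) s := by
    intro k
    induction k with
    | zero => exact fun _ => closed_neg hU (by norm_num)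
    | succ k ih =>
      intro hk
      push_cast at hk ⊢
      rw [add_sub_cancel_right] at hk ⊢
      exact h k (by omega) hk (ih (by omega))
  rcases lt_or_ge N 0 with hN | hN
  · exact closed_neg hU hN
  · have := key (N + 1).toNat (by omega)
    rwa [show (((N + 1).toNat : ℕ) : ℤ) - 1 = N by omega] at this

theorem closed_of_rational {N s : ℤ}
    (h : ∀ e : ℤ, 0 ≤ e → e ≤ N → e ≤ s - w → RationalZero U (e + 1) (s + 1)) :
    ClosedZero U N s := by
  refine closed_induction hU fun a ha haN h1 => ?_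
  refine closed_succ hU ha h1 fun t ht => ?_
  obtain ⟨n, hn, hd⟩ := hU.space (a + 1) (by omega)
  obtain ⟨Z, hZ, hZd, hD⟩ := hU.hypersurface t n hn (by rw [hd, ht])
  rw [ht] at hZd hD
  have h2 : GenZero (U.S n) (U.Y n) (a + 1) (s + 1) := by
    rcases le_or_gt a (s - w) with hle | hgt
    · exact h a ha haN hle n hn hd
    · have := hU.generic n (s + 1) hn (by omega)
      rwa [hd] at this
  exact gen_dominates hD (closed_gen (hU.strata n) (fun i _ x => hU.space_zero n hn i x) h2 hZ hZd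
    fun C hC hCd => h1 n C hC (by omega))

theorem closed_of_proj {N s : ℤ} (h : ProjZero U N s) : ClosedZero U N s := by
  refine closed_induction hU fun a ha haN h1 => ?_
  refine closed_succ hU ha h1 fun t ht => ?_
  refine gen_of_open (hU.strata t) fun B hB i hi x => ?_
  exact open_zero (hU.strata t) (h t (by omega) i hi)
    (h1 t _ inf_le_left (by omega) _ (by omega)) x

theorem closed_of_fields {N s : ℤ} (h : FieldsZero U N s) : ClosedZero U N s := by
  refine closed_induction hU fun a ha haN h1 t Z hZ hd => ?_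
  rcases lt_or_eq_of_le hd with hlt | heq
  · exact h1 t Z hZ (by omega)
  · exact null_of_gen (hU.strata t) ha (h t Z a hZ heq ha haN)
      fun C hC hCd => h1 t C (hC.trans hZ) (by omega)

theorem proj_of_closed {N s : ℤ} (h : ClosedZero U N s) : ProjZero U N s :=
  fun t ht => h t _ le_rfl (by rw [hU.dim_eq]; exact ht)

theorem all_of_closed {N s : ℤ} (h : ClosedZero U N s) : AllZero U N s :=
  fun t Z hZ hd i hi => ⟨fun x => h t Z hZ hd i hi x, fun B x => open_zero (hU.strata t)
    (h t Z hZ hd i hi)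
    (h t _ (inf_le_left.trans hZ) (((hU.strata t).dim_mono inf_le_left).trans hd) _ (by omega)) x⟩

theorem fields_of_closed {N s : ℤ} (h : ClosedZero U N s) : FieldsZero U N s :=
  fun t Z _ hZ hd _ heN => gen_of_open (hU.strata t) fun B _ i hi x =>
    (all_of_closed hU h t Z hZ (by omega) i hi).2 B x

theorem opens_of_closed {N s : ℤ} (h : ClosedZero U N s) : OpensZero U (N + 1) (s + 1) :=
  fun n hn _ B hB i hi x => open_zero (hU.strata n) (hU.space_zero n hn i)
    (h n _ inf_le_left (by omega) _ (by omega)) x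

theorem rational_of_opens {e s : ℤ} (h : OpensZero U e s) : RationalZero U e s :=
  fun n hn hd => gen_of_open (hU.strata n) fun B hB i hi x => h n hn hd B hB i hi x

omit hU in
theorem closed_of_all {N s : ℤ} (h : AllZero U N s) : ClosedZero U N s :=
  fun t Z hZ hd i hi x => (h t Z hZ hd i hi).1 x

omit hU in
theorem closed_mono {N N' s : ℤ} (hN : N' ≤ N) (h : ClosedZero U N s) : ClosedZero U N' s :=
  fun t Z hZ hd => h t Z hZ (hd.trans hN)

theorem rational_of_variety {t : U.I} {Z : (U.S t).C} {e s : ℤ} (hZ : Z ≤ U.Y t)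
    (hd : (U.S t).dim Z = e) (h : GenZero (U.S t) Z e s) : RationalZero U e s := by
  intro n hn hn'
  have := hU.noether t n Z hZ (hd.trans hn'.symm) hn
  rw [hn'] at this
  exact gen_dominates this h

theorem bounded : Bounded U w := by
  intro N s
  have h1 : ProjZero U N s → ∀ e : ℤ, 0 ≤ e → e ≤ N → OpensZero U (e + 1) (s + 1) :=
    fun h e _ he => opens_of_closed hU (closed_mono he (closed_of_proj hU h))
  exact ⟨⟨fun h => all_of_closed hU (closed_of_proj hU h),
      fun h => proj_of_closed hU (closed_of_all h)⟩,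
    ⟨fun h => fields_of_closed hU (closed_of_proj hU h),
      fun h => proj_of_closed hU (closed_of_fields hU h)⟩,
    ⟨h1, fun h => proj_of_closed hU (closed_of_rational hU fun e he he' _ =>
      rational_of_opens hU (h e he he'))⟩,
    ⟨fun h e he he' _ => rational_of_opens hU (h1 h e he he'),
      fun h => proj_of_closed hU (closed_of_rational hU h)⟩⟩

theorem closed_of_one {N : ℤ} (h : ∀ s, RationalZero U (N + 1) s) (s : ℤ) : ClosedZero U N s := by
  refine closed_of_rational hU fun e he heN _ => ?_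
  refine rational_le hU (by omega) (N - e).toNat ?_ (s + 1)
  rwa [show e + 1 + (((N - e).toNat : ℕ) : ℤ) = N + 1 by omega]

theorem oneField : OneField U := by
  refine ⟨fun N => ⟨fun h s => ?_, fun h s => proj_of_closed hU (closed_of_one hU h s)⟩,
    fun t Z e hZ hd h s => ?_⟩
  · have := rational_of_opens hU (opens_of_closed hU (closed_of_proj hU (h (s - 1))))
    rwa [sub_add_cancel] at this
  · refine proj_of_closed hU (closed_of_one hU (fun s => ?_) s)
    rw [sub_add_cancel]
    exact rational_of_variety hU hZ hd (h s)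

theorem allDimensions : AllDimensions U w := by
  refine ⟨fun s => ?_, fun h N => ?_, fun h N s => ?_⟩
  · have h1 : (∀ e : ℤ, 0 ≤ e → e ≤ s - w → RationalZero U (e + 1) (s + 1)) →
        ∀ N : ℤ, ProjZero U N s :=
      fun h N => proj_of_closed hU (closed_of_rational hU fun e he _ he' => h e he he')
    have h2 : ProjZero U (s - w) s →
        ∀ e : ℤ, 0 ≤ e → e ≤ s - w → RationalZero U (e + 1) (s + 1) :=
      fun h e he he' => (bounded hU (s - w) s).2.2.2.1 h e he he' he'
    exact ⟨⟨fun h => h _, fun h => h1 (h2 h)⟩, ⟨fun h => h2 (h _), h1⟩⟩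
  · obtain ⟨n, hn, hd⟩ := hU.space (max N 0) (le_max_right _ _)
    refine ⟨n, U.Y n, max N 0, le_rfl, (hU.dim_eq n).trans hd, le_max_left _ _, fun s => ?_⟩
    exact fields_of_closed hU (closed_of_proj hU (h (max N 0) s)) n _ _ le_rfl
      ((hU.dim_eq n).trans hd) (le_max_right _ _) le_rfl
  · obtain ⟨t, Z, e, hZ, hd, hN, hG⟩ := h (N + 1)
    intro t' ht'
    exact (oneField hU).2 t Z e hZ hd hG s t' (by omega)

end Pool.Agent.K6.H28.NW
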