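import Pool.Agent.K6.H28.NW.AllDefs
import Pool.Agent.K6.H28.NW.Main

/-!
# All weights: proofs
-/

set_option autoImplicit false
set_option linter.unusedVariables false

namespace Pool.Agent.K6.H28.NW.All

section

variable {U : Family} (hU : IsWorld U)

include hU

theorem closed_neg {a s : ℤ} (ha : a < 0) : ClosedZero U a s :=
  fun t Z _ hZ i _ x => (hU.strata t).empty Z (by omega) i x

theorem rational_down {e s : ℤ} (he : 0 ≤ e) (h : RationalZero U (e + 1) (s + 1)) :
    RationalZero U e s := by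
  intro n hn hd
  obtain ⟨n', hn', hd'⟩ := hU.space (e + 1) (by omega)
  obtain ⟨H, -, -, hD, hR⟩ := hU.hyperplane n n' hn hn' (by rw [hd, hd'])
  rw [hd] at hD hR
  exact gen_dominates hD (gen_residues (hU.strata n') hR (h n' hn' hd'))

theorem rational_le {e : ℤ} (he : 0 ≤ e) (k : ℕ) (h : ∀ s, RationalZero U (e + k) s) (s : ℤ) :
    RationalZero U e s := by
  induction k generalizing s with
  | zero => simpa using h s
  | succ k ih =>
    apply ih
    intro s
    apply rational_down hU (by omega)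
    have := h (s + 1)
    push_cast at this
    rw [add_assoc]
    exact this

theorem closed_succ {a s : ℤ} (ha : 0 ≤ a) (h : ClosedZero U (a - 1) s)
    (hY : ∀ t, U.d t = a → GenZero (U.S t) (U.Y t) a s) : ClosedZero U a s := by
  intro t Z hZ hd
  obtain ⟨t', ht', hD⟩ := hU.models t Z a hZ ha hd
  exact null_of_gen (hU.strata t) ha (gen_dominates hD (hY t' ht'))
    fun C hC hCd => h t C (hC.trans hZ) (by omega)

theorem closed_induction {N s : ℤ}
    (h : ∀ a, 0 ≤ a → a ≤ N → ClosedZero U (a - 1) s → ClosedZero U a s) : ClosedZero U N s := by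
  have key : ∀ k : ℕ, (k : ℤ) - 1 ≤ N → ClosedZero U ((k : ℤ) - 1) s := by
    intro k
    induction k with
    | zero => exact fun _ => closed_neg hU (by norm_num)
    | succ k ih =>
      intro hk
      push_cast at hk ⊢
      rw [add_sub_cancel_right] at hk ⊢
      exact h k (by omega) hk (ih (by omega))
  rcases lt_or_ge N 0 with hN | hN
  · exact closed_neg hU hN
  · have := key (N + 1).toNat (by omega)
    rwa [show (((N + 1).toNat : ℕ) : ℤ) - 1 = N by omega] at this

theorem closed_of_rational {N s : ℤ}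
    (h : ∀ e : ℤ, 0 ≤ e → e ≤ N → RationalZero U (e + 1) (s + 1)) : ClosedZero U N s := by
  refine closed_induction hU fun a ha haN h1 => ?_
  refine closed_succ hU ha h1 fun t ht => ?_
  obtain ⟨n, hn, hd⟩ := hU.space (a + 1) (by omega)
  obtain ⟨Z, hZ, hZd, hD⟩ := hU.hypersurface t n hn (by rw [hd, ht])
  rw [ht] at hZd hD
  exact gen_dominates hD (closed_gen (hU.strata n) (fun i _ x => hU.space_zero n hn i x)
    (h a ha haN n hn hd) hZ hZd fun C hC hCd => h1 n C hC (by omega))

theorem closed_of_proj {N s : ℤ} (h : ProjZero U N s) : ClosedZero U N s := by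
  refine closed_induction hU fun a ha haN h1 => ?_
  refine closed_succ hU ha h1 fun t ht => ?_
  refine gen_of_open (hU.strata t) fun B hB i hi x => ?_
  exact open_zero (hU.strata t) (h t (by omega) i hi)
    (h1 t _ inf_le_left (by omega) _ (by omega)) x

theorem proj_of_closed {N s : ℤ} (h : ClosedZero U N s) : ProjZero U N s :=
  fun t ht => h t _ le_rfl (by rw [hU.dim_eq]; exact ht)

theorem all_of_closed {N s : ℤ} (h : ClosedZero U N s) : AllZero U N s :=
  fun t Z hZ hd i hi => ⟨fun x => h t Z hZ hd i hi x, fun B x => open_zero (hU.strata t)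
    (h t Z hZ hd i hi)
    (h t _ (inf_le_left.trans hZ) (((hU.strata t).dim_mono inf_le_left).trans hd) _ (by omega)) x⟩

theorem rational_of_closed {N s : ℤ} (h : ClosedZero U N s) : RationalZero U (N + 1) (s + 1) :=
  fun n hn hd => gen_of_open (hU.strata n) fun B hB i hi x =>
    open_zero (hU.strata n) (hU.space_zero n hn i) (h n _ inf_le_left (by omega) _ (by omega)) x

theorem rational_of_variety {t : U.I} {Z : (U.S t).C} {e s : ℤ} (hZ : Z ≤ U.Y t)
    (hd : (U.S t).dim Z = e) (h : GenZero (U.S t) Z e s) : RationalZero U e s := by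
  intro n hn hn'
  have := hU.noether t n Z hZ (hd.trans hn'.symm) hn
  rw [hn'] at this
  exact gen_dominates this h

theorem closed_of_one {N : ℤ} (h : ∀ s, RationalZero U (N + 1) s) (s : ℤ) : ClosedZero U N s := by
  refine closed_of_rational hU fun e he heN => ?_
  refine rational_le hU (by omega) (N - e).toNat ?_ (s + 1)
  rwa [show e + 1 + (((N - e).toNat : ℕ) : ℤ) = N + 1 by omega]

end

/-! ### Triangles -/

theorem isAdd_sub {G H : Type} [AddCommGroup G] [AddCommGroup H] {f : G → H} (h : IsAdd f)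
    {x y : G} (hxy : f x = f y) : f (x - y) = 0 := by
  have h1 := h (x - y) y
  rw [sub_add_cancel, hxy] at h1
  exact right_eq_add.1 h1

theorem gen_iff {S : Strata} (hS : IsStrata S) {D : Triangle S} (hD : IsTriangle D) (A : S.C)
    (d : ℤ) : GenIso D A d ↔ ∀ s : ℤ, GenZero S A d s := by
  constructor
  · intro h s B hB i _ c
    obtain ⟨i', rfl⟩ : ∃ i', i = i' + 1 := ⟨i - 1, by ring⟩
    obtain ⟨B₁, h₁, hB₁, h1⟩ := (h B hB i').1 (D.b A B i' c) ((hD.exact_H A B i' _).2 ⟨c, rfl⟩)
    rw [hD.b_res] at h1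
    obtain ⟨v, hv⟩ := (hD.exact_O A B₁ i' _).1 h1
    obtain ⟨B₂, h₂, hB₂, x, hx⟩ := (h B₁ hB₁ (i' + 1)).2 v
    refine ⟨B₂, h₁.trans h₂, hB₂, ?_⟩
    rw [← hS.res_res A h₁ h₂ (h₁.trans h₂), ← hv, hD.g_res]
    exact (hD.exact_W A B₂ (i' + 1) _).2 ⟨x, hx⟩
  · intro h B hB i
    constructor
    · intro x hx
      obtain ⟨c, rfl⟩ := (hD.exact_H A B i x).1 hx
      obtain ⟨B', h', hB', h0⟩ := h (i + 1) B hB (i + 1) le_rfl c
      refine ⟨B', h', hB', ?_⟩
      rw [hD.b_res, h0, (hD.add_b A B' i).map_zero]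
    · intro y
      obtain ⟨B', h', hB', h0⟩ := h i B hB i le_rfl (D.g A B i y)
      rw [hD.g_res] at h0
      exact ⟨B', h', hB', (hD.exact_W A B' i _).1 h0⟩

theorem bij_iff {S : Strata} {D : Triangle S} (hD : IsTriangle D) (A B : S.C) :
    (∀ (i : ℤ) (c : S.O A B i), c = 0) ↔ ∀ i : ℤ, Function.Bijective (D.f A B i) := by
  constructor
  · intro h i
    constructor
    · intro x y hxy
      obtain ⟨c, hc⟩ := (hD.exact_H A B i (x - y)).1 (isAdd_sub (hD.add_f A B i) hxy)
      rw [h _ c, (hD.add_b A B i).map_zero] at hc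
      exact sub_eq_zero.1 hc.symm
    · intro y
      exact (hD.exact_W A B i y).1 (h _ _)
  · intro h i c
    obtain ⟨i', rfl⟩ : ∃ i', i = i' + 1 := ⟨i - 1, by ring⟩
    have h1 : D.f A B i' (D.b A B i' c) = D.f A B i' 0 :=
      ((hD.exact_H A B i' _).2 ⟨c, rfl⟩).trans (hD.add_f A B i').map_zero.symm
    obtain ⟨v, rfl⟩ := (hD.exact_O A B i' c).1 ((h i').1 h1)
    obtain ⟨x, rfl⟩ := (h (i' + 1)).2 v
    exact (hD.exact_W A B (i' + 1) _).2 ⟨x, rfl⟩

theorem closed_iff {S : Strata} (hS : IsStrata S) (Z : S.C) :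
    (∀ (i : ℤ) (x : S.M Z i), x = 0) ↔ ∀ (i : ℤ) (c : S.O Z ⊥ i), c = 0 := by
  have hb : ∀ (i : ℤ) (c : S.M (Z ⊓ ⊥) i), c = 0 := by
    apply hS.empty
    rw [inf_bot_eq, hS.dim_bot]
    norm_num
  constructor
  · intro h i c
    exact open_zero hS (h i) (hb _) c
  · intro h i x
    obtain ⟨c, rfl⟩ := (hS.exact_M Z ⊥ i x).1 (h _ _)
    rw [hb _ c, (hS.inc _ _).map_zero]

section

variable {U : Family} (hU : IsWorld U) {m : ℤ} {D : ∀ t, Triangle (U.S t)}
  (hD : IsComparison U m D)

theorem parshin_iff (t : U.I) (hS : IsStrata (U.S t)) (hD : IsComparison U m D) :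
    (∀ i : ℤ, i ≠ 2 * m → ∀ x : (D t).H (U.Y t) ⊥ i, x = 0) ↔
      ∀ (i : ℤ) (x : (U.S t).M (U.Y t) i), x = 0 := by
  rw [closed_iff hS, bij_iff (hD.triangle t)]
  constructor
  · intro h i
    rcases eq_or_ne i (2 * m) with rfl | hi
    · exact hD.cycles t
    · exact ⟨fun x y _ => (h i hi x).trans (h i hi y).symm,
        fun y => ⟨0, by rw [((hD.triangle t).add_f _ _ _).map_zero, hD.pure t i hi y]⟩⟩
  · intro h i hi x
    exact (h i).1 ((hD.pure t i hi _).trans (hD.pure t i hi _).symm)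

include hU hD

theorem parshinTo_iff (N : ℤ) : ParshinTo U m D N ↔ ∀ s : ℤ, ProjZero U N s :=
  ⟨fun h s t ht i _ x => (parshin_iff t (hU.strata t) hD).1 (h t ht) i x,
    fun h t ht => (parshin_iff t (hU.strata t) hD).2 fun i x => h i t ht i le_rfl x⟩

theorem closed_of_parshin {N : ℤ} (h : ParshinTo U m D N) (s : ℤ) : ClosedZero U N s :=
  closed_of_proj hU ((parshinTo_iff hU hD N).1 h s)

theorem parshin_of_closed {N : ℤ} (h : ∀ s, ClosedZero U N s) : ParshinTo U m D N :=
  (parshinTo_iff hU hD N).2 fun s => proj_of_closed hU (h s)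

theorem compare_of_parshin {N : ℤ} (h : ParshinTo U m D N) : CompareTo U D N :=
  fun t Z B hZ hd => (bij_iff (hD.triangle t) Z B).1 fun i c =>
    (all_of_closed hU (closed_of_parshin hU hD h i) t Z hZ hd i le_rfl).2 B c

theorem parshin_of_compare {N : ℤ} (h : CompareTo U D N) : ParshinTo U m D N :=
  fun t ht i hi x => (h t (U.Y t) ⊥ le_rfl (by rw [hU.dim_eq]; exact ht) i).1
    ((hD.pure t i hi _).trans (hD.pure t i hi _).symm)

theorem allWeights : AllWeights U m D := by
  have h3 : ∀ (t : U.I) (Z : (U.S t).C) (e : ℤ), Z ≤ U.Y t → (U.S t).dim Z = e →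
      GenIso (D t) Z e → ParshinTo U m D (e - 1) := by
    intro t Z e hZ hd h
    rw [gen_iff (hU.strata t) (hD.triangle t)] at h
    refine parshin_of_closed hU hD (closed_of_one hU fun s => ?_)
    rw [sub_add_cancel]
    exact rational_of_variety hU hZ hd (h s)
  refine ⟨fun N => ⟨compare_of_parshin hU hD, parshin_of_compare hU hD⟩, fun N => ⟨?_, ?_⟩, h3, ?_⟩
  · intro h n hn hd
    rw [gen_iff (hU.strata n) (hD.triangle n)]
    intro s
    have := rational_of_closed hU (closed_of_parshin hU hD h (s - 1)) n hn hd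
    rwa [sub_add_cancel] at this
  · intro h
    refine parshin_of_closed hU hD (closed_of_one hU fun s n hn hd => ?_)
    exact (gen_iff (hU.strata n) (hD.triangle n) _ _).1 (h n hn hd) s
  · constructor
    · intro h N
      obtain ⟨n, hn, hd⟩ := hU.space (max N 0) (le_max_right _ _)
      refine ⟨n, U.Y n, max N 0, le_rfl, (hU.dim_eq n).trans hd, le_max_left _ _, ?_⟩
      rw [gen_iff (hU.strata n) (hD.triangle n)]
      intro s
      refine gen_of_open (hU.strata n) fun B _ i _ x => ?_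
      exact (all_of_closed hU (closed_of_parshin hU hD (h (max N 0)) i) n _ le_rfl
        (by rw [hU.dim_eq, hd]) i le_rfl).2 B x
    · intro h N t ht
      obtain ⟨t', Z, e, hZ, hd, hN, hG⟩ := h (N + 1)
      exact h3 t' Z e hZ hd hG t (by omega)

end

end Pool.Agent.K6.H28.NW.All
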