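import Pool.Agent.K6.H28.NW.Defs

/-!
# All weights: the motivic homology relative to the weight homology, definitions
-/

set_option autoImplicit false

namespace Pool.Agent.K6.H28.NW

/-- Properties of the family of all non-empty smooth projective schemes `Y t` of pure dimension over a
finite field, where `R` is the set of projective spaces, and of the relative homology `M A i`, `O A B i` of
closed and of locally closed subschemes: each closed subset `Z` of `Y t` of dimension at most `e` is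
dominated by a scheme `Y t'` of dimension `e` (alterations); there are projective spaces of all
dimensions, and their relative homology is zero (the conjecture of Parshin holds for them); the residues
for a hyperplane, which is a projective space; each `Y t` is dominated by a hypersurface in the
projective space of dimension `d t + 1`; a closed subset of dimension `e` dominates the projective space of
dimension `e`. -/
structure IsWorld (U : Family) : Prop where
  strata : ∀ t, IsStrata (U.S t)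
  nonneg : ∀ t, 0 ≤ U.d t
  dim_eq : ∀ t, (U.S t).dim (U.Y t) = U.d t
  models : ∀ (t : U.I) (Z : (U.S t).C) (e : ℤ), Z ≤ U.Y t → 0 ≤ e → (U.S t).dim Z ≤ e →
    ∃ t' : U.I, U.d t' = e ∧ Dominates (U.S t') (U.Y t') (U.S t) Z e
  space : ∀ e : ℤ, 0 ≤ e → ∃ n : U.I, U.R n ∧ U.d n = e
  space_zero : ∀ n : U.I, U.R n → ∀ (i : ℤ) (x : (U.S n).M (U.Y n) i), x = 0
  hyperplane : ∀ n n' : U.I, U.R n → U.R n' → U.d n' = U.d n + 1 → ∃ H : (U.S n').C,
    H ≤ U.Y n' ∧ (U.S n').dim H ≤ U.d n ∧ Dominates (U.S n') H (U.S n) (U.Y n) (U.d n) ∧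
      Residues (U.S n') (U.Y n') H (U.d n)
  hypersurface : ∀ t n : U.I, U.R n → U.d n = U.d t + 1 → ∃ Z : (U.S n).C, Z ≤ U.Y n ∧
    (U.S n).dim Z ≤ U.d t ∧ Dominates (U.S n) Z (U.S t) (U.Y t) (U.d t)
  noether : ∀ (t n : U.I) (Z : (U.S t).C), Z ≤ U.Y t → (U.S t).dim Z = U.d n → U.R n →
    Dominates (U.S t) Z (U.S n) (U.Y n) (U.d n)

/-- The homology groups `H A B i` and `W A B i` of the locally closed subschemes `A ∖ B`, their
restrictions `rH`, `rW`, a map `f` from `H` to `W`, and the maps `g` to and `b` from the relative groups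
`O A B i`. -/
structure Triangle (S : Strata) where
  H : S.C → S.C → ℤ → Type
  W : S.C → S.C → ℤ → Type
  [grpH : ∀ A B i, AddCommGroup (H A B i)]
  [grpW : ∀ A B i, AddCommGroup (W A B i)]
  rH : ∀ (A : S.C) {B B' : S.C}, B ≤ B' → ∀ i : ℤ, H A B i → H A B' i
  rW : ∀ (A : S.C) {B B' : S.C}, B ≤ B' → ∀ i : ℤ, W A B i → W A B' i
  f : ∀ (A B : S.C) (i : ℤ), H A B i → W A B i
  g : ∀ (A B : S.C) (i : ℤ), W A B i → S.O A B i
  b : ∀ (A B : S.C) (i : ℤ), S.O A B (i + 1) → H A B i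

attribute [instance] Triangle.grpH Triangle.grpW

/-- The maps are additive and commute with the restrictions, and the long sequence
`H_(i+1) → W_(i+1) → O_(i+1) → H_i → W_i` is exact. -/
structure IsTriangle {S : Strata} (D : Triangle S) : Prop where
  add_rH : ∀ (A : S.C) {B B' : S.C} (h : B ≤ B') (i : ℤ), IsAdd (D.rH A h i)
  add_rW : ∀ (A : S.C) {B B' : S.C} (h : B ≤ B') (i : ℤ), IsAdd (D.rW A h i)
  add_f : ∀ (A B : S.C) (i : ℤ), IsAdd (D.f A B i)
  add_g : ∀ (A B : S.C) (i : ℤ), IsAdd (D.g A B i)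
  add_b : ∀ (A B : S.C) (i : ℤ), IsAdd (D.b A B i)
  rH_rH : ∀ (A : S.C) {B B' B'' : S.C} (h : B ≤ B') (h' : B' ≤ B'') (h'' : B ≤ B'') (i : ℤ)
    (x : D.H A B i), D.rH A h' i (D.rH A h i x) = D.rH A h'' i x
  rW_rW : ∀ (A : S.C) {B B' B'' : S.C} (h : B ≤ B') (h' : B' ≤ B'') (h'' : B ≤ B'') (i : ℤ)
    (x : D.W A B i), D.rW A h' i (D.rW A h i x) = D.rW A h'' i x
  f_res : ∀ (A : S.C) {B B' : S.C} (h : B ≤ B') (i : ℤ) (x : D.H A B i),
    D.rW A h i (D.f A B i x) = D.f A B' i (D.rH A h i x)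
  g_res : ∀ (A : S.C) {B B' : S.C} (h : B ≤ B') (i : ℤ) (x : D.W A B i),
    S.res A h i (D.g A B i x) = D.g A B' i (D.rW A h i x)
  b_res : ∀ (A : S.C) {B B' : S.C} (h : B ≤ B') (i : ℤ) (x : S.O A B (i + 1)),
    D.rH A h i (D.b A B i x) = D.b A B' i (S.res A h (i + 1) x)
  exact_W : ∀ (A B : S.C) (i : ℤ), IsExact (D.f A B i) (D.g A B i)
  exact_O : ∀ (A B : S.C) (i : ℤ), IsExact (D.g A B (i + 1)) (D.b A B i)
  exact_H : ∀ (A B : S.C) (i : ℤ), IsExact (D.b A B i) (D.f A B i)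

/-- At the generic points of dimension `d` of `A` the map from `H` to `W` is bijective in all degrees. -/
def GenIso {S : Strata} (D : Triangle S) (A : S.C) (d : ℤ) : Prop :=
  ∀ B : S.C, S.dim (A ⊓ B) < d → ∀ i : ℤ,
    (∀ x : D.H A B i, D.f A B i x = 0 →
      ∃ (B' : S.C) (h : B ≤ B'), S.dim (A ⊓ B') < d ∧ D.rH A h i x = 0) ∧
    ∀ y : D.W A B i, ∃ (B' : S.C) (h : B ≤ B'), S.dim (A ⊓ B') < d ∧
      ∃ x : D.H A B' i, D.f A B' i x = D.rW A h i y

/-- The comparison of the motivic homology `H_i^c(A ∖ B, ℚ(m))` with the weight homology of `A ∖ B` with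
coefficients in `CH_m ⊗ ℚ` (the homology of the complex `CH_m` of the weight complex of Gillet and Soulé):
for the smooth projective schemes `Y t = Y t ∖ ∅` the latter is `CH_m(Y t) ⊗ ℚ`, in the degree `2 m`. -/
structure IsComparison (U : Family) (m : ℤ) (D : ∀ t, Triangle (U.S t)) : Prop where
  triangle : ∀ t, IsTriangle (D t)
  pure : ∀ (t : U.I) (i : ℤ), i ≠ 2 * m → ∀ y : (D t).W (U.Y t) ⊥ i, y = 0
  cycles : ∀ t : U.I, Function.Bijective ((D t).f (U.Y t) ⊥ (2 * m))

/-- The conjecture `P_m` for the smooth projective schemes `Y t` of dimension at most `N`. -/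
def ParshinTo (U : Family) (m : ℤ) (D : ∀ t, Triangle (U.S t)) (N : ℤ) : Prop :=
  ∀ t : U.I, U.d t ≤ N → ∀ i : ℤ, i ≠ 2 * m → ∀ x : (D t).H (U.Y t) ⊥ i, x = 0

/-- For all schemes `Z ∖ B`, where `Z` and `B` are closed subsets of schemes `Y t` and `Z` has dimension at
most `N`, the map from the motivic homology to the weight homology is bijective. -/
def CompareTo (U : Family) (D : ∀ t, Triangle (U.S t)) (N : ℤ) : Prop :=
  ∀ (t : U.I) (Z B : (U.S t).C), Z ≤ U.Y t → (U.S t).dim Z ≤ N → ∀ i : ℤ,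
    Function.Bijective ((D t).f Z B i)

/-- The conjecture `P_m` in terms of the fields of rational functions. -/
def AllWeights (U : Family) (m : ℤ) (D : ∀ t, Triangle (U.S t)) : Prop :=
  (∀ N : ℤ, ParshinTo U m D N ↔ CompareTo U D N) ∧
  (∀ N : ℤ, ParshinTo U m D N ↔ ∀ n : U.I, U.R n → U.d n = N + 1 → GenIso (D n) (U.Y n) (N + 1)) ∧
  (∀ (t : U.I) (Z : (U.S t).C) (e : ℤ), Z ≤ U.Y t → (U.S t).dim Z = e → GenIso (D t) Z e →
    ParshinTo U m D (e - 1)) ∧
  ((∀ N : ℤ, ParshinTo U m D N) ↔ ∀ N : ℤ, ∃ (t : U.I) (Z : (U.S t).C) (e : ℤ), Z ≤ U.Y t ∧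
    (U.S t).dim Z = e ∧ N ≤ e ∧ GenIso (D t) Z e)

end Pool.Agent.K6.H28.NW
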