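import Mathlib

/-!
# Motivic homology of varieties over a finite field in a fixed negative weight: definitions
-/

set_option autoImplicit false

namespace Pool.Agent.K6.H28.NW

/-- Data of the closed subsets `A`, `B`, ... of a scheme, regarded as reduced schemes, and of the locally
closed subschemes `A ∖ B`, with their homology groups `M A i` and `O A B i` in a fixed weight: the
push-forwards `inc` for `A ⊆ A'` and `push` for `A ∖ B ⊆ A' ∖ B`, the restrictions `j` to the open
subscheme `A ∖ B` of `A` and `res` to `A ∖ B' ⊆ A ∖ B` for `B ⊆ B'`, and the boundary maps `del` of the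
localisation sequences of `A ∩ B ⊆ A`. -/
structure Strata where
  C : Type
  [lat : Lattice C]
  [bot : OrderBot C]
  dim : C → ℤ
  M : C → ℤ → Type
  O : C → C → ℤ → Type
  [grpM : ∀ A i, AddCommGroup (M A i)]
  [grpO : ∀ A B i, AddCommGroup (O A B i)]
  inc : ∀ {A A' : C}, A ≤ A' → ∀ i : ℤ, M A i → M A' i
  j : ∀ (A B : C) (i : ℤ), M A i → O A B i
  del : ∀ (A B : C) (i : ℤ), O A B (i + 1) → M (A ⊓ B) i
  res : ∀ (A : C) {B B' : C}, B ≤ B' → ∀ i : ℤ, O A B i → O A B' i
  push : ∀ {A A' : C}, A ≤ A' → ∀ (B : C) (i : ℤ), O A B i → O A' B i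

attribute [instance] Strata.lat Strata.bot Strata.grpM Strata.grpO

/-- The map `f` is additive. -/
def IsAdd {G H : Type} [AddCommGroup G] [AddCommGroup H] (f : G → H) : Prop :=
  ∀ x y, f (x + y) = f x + f y

/-- The sequence of `f` and `g` is exact. -/
def IsExact {G H K : Type} [AddCommGroup K] (f : G → H) (g : H → K) : Prop :=
  ∀ y, g y = 0 ↔ ∃ x, f x = y

/-- All maps are additive. -/
structure IsAdditive (S : Strata) : Prop where
  inc : ∀ {A A' : S.C} (h : A ≤ A') (i : ℤ), IsAdd (S.inc h i)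
  j : ∀ (A B : S.C) (i : ℤ), IsAdd (S.j A B i)
  del : ∀ (A B : S.C) (i : ℤ), IsAdd (S.del A B i)
  res : ∀ (A : S.C) {B B' : S.C} (h : B ≤ B') (i : ℤ), IsAdd (S.res A h i)
  push : ∀ {A A' : S.C} (h : A ≤ A') (B : S.C) (i : ℤ), IsAdd (S.push h B i)

/-- Functoriality, push-forward commutes with restriction, and the boundary maps are natural. -/
structure IsNatural (S : Strata) : Prop where
  inc_inc : ∀ {A A' A'' : S.C} (h : A ≤ A') (h' : A' ≤ A'') (h'' : A ≤ A'') (i : ℤ) (x : S.M A i),
    S.inc h' i (S.inc h i x) = S.inc h'' i x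
  push_push : ∀ {A A' A'' : S.C} (h : A ≤ A') (h' : A' ≤ A'') (h'' : A ≤ A'') (B : S.C) (i : ℤ)
    (x : S.O A B i), S.push h' B i (S.push h B i x) = S.push h'' B i x
  res_res : ∀ (A : S.C) {B B' B'' : S.C} (h : B ≤ B') (h' : B' ≤ B'') (h'' : B ≤ B'') (i : ℤ)
    (x : S.O A B i), S.res A h' i (S.res A h i x) = S.res A h'' i x
  j_res : ∀ (A : S.C) {B B' : S.C} (h : B ≤ B') (i : ℤ) (x : S.M A i),
    S.res A h i (S.j A B i x) = S.j A B' i x
  j_push : ∀ {A A' : S.C} (h : A ≤ A') (B : S.C) (i : ℤ) (x : S.M A i),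
    S.j A' B i (S.inc h i x) = S.push h B i (S.j A B i x)
  push_res : ∀ {A A' : S.C} (h : A ≤ A') {B B' : S.C} (h' : B ≤ B') (i : ℤ) (x : S.O A B i),
    S.res A' h' i (S.push h B i x) = S.push h B' i (S.res A h' i x)
  del_res : ∀ (A : S.C) {B B' : S.C} (h : B ≤ B') (i : ℤ) (x : S.O A B (i + 1)),
    S.del A B' i (S.res A h (i + 1) x) = S.inc (inf_le_inf_left A h) i (S.del A B i x)

/-- The properties of Borel-Moore homology: dimensions (the empty set has dimension `-1`),
additivity, naturality, exact localisation sequences, the homology of the empty scheme is zero, and: if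
`A ⊆ A'` have dimension at most `d`, and `B` contains no component of dimension `d` of `A`, then for
some larger `B'` that contains no such component the schemes `A ∖ B'` and `A' ∖ B'` are equal (add to
`B` the components of `A'` that are not contained in `A`). -/
structure IsStrata (S : Strata) : Prop extends IsAdditive S, IsNatural S where
  dim_bot : S.dim ⊥ = -1
  dim_mono : ∀ {A B : S.C}, A ≤ B → S.dim A ≤ S.dim B
  empty : ∀ A : S.C, S.dim A < 0 → ∀ (i : ℤ) (x : S.M A i), x = 0
  exact_M : ∀ (A B : S.C) (i : ℤ), IsExact (S.inc (inf_le_left : A ⊓ B ≤ A) i) (S.j A B i)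
  exact_O : ∀ (A B : S.C) (i : ℤ), IsExact (S.j A B (i + 1)) (S.del A B i)
  exact_Z : ∀ (A B : S.C) (i : ℤ), IsExact (S.del A B i) (S.inc (inf_le_left : A ⊓ B ≤ A) i)
  components : ∀ {A A' : S.C} (h : A ≤ A') (B : S.C) (d : ℤ), S.dim A' ≤ d → S.dim (A ⊓ B) < d →
    ∃ B' : S.C, B ≤ B' ∧ S.dim (A ⊓ B') < d ∧ ∀ i : ℤ, Function.Bijective (S.push h B' i)

/-- In the degrees `i ≤ s` the homology at the generic points of dimension `d` of `A` (the direct limit of
the groups of the `A ∖ B`, where `B` contains no component of dimension `d` of `A`) is zero. -/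
def GenZero (S : Strata) (A : S.C) (d s : ℤ) : Prop :=
  ∀ B : S.C, S.dim (A ⊓ B) < d → ∀ i : ℤ, i ≤ s → ∀ x : S.O A B i,
    ∃ (B' : S.C) (h : B ≤ B'), S.dim (A ⊓ B') < d ∧ S.res A h i x = 0

/-- There is a dominant rational map, generically finite, from `Y` to `Z`, at the generic points of
dimension `d`: for each open subscheme `Z ∖ B` there are a flat pull-back `α` to some `Y ∖ B'` and, for
each smaller `Y ∖ B''`, a left inverse `β` of its restriction over some `Z ∖ B₁` (the push-forward
divided by the degree). The schemes `Y` and `Z` may belong to different ambient schemes. -/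
def Dominates (S' : Strata) (Y : S'.C) (S : Strata) (Z : S.C) (d : ℤ) : Prop :=
  ∀ B : S.C, S.dim (Z ⊓ B) < d → ∃ B' : S'.C, S'.dim (Y ⊓ B') < d ∧ ∀ i : ℤ,
    ∃ α : S.O Z B i → S'.O Y B' i, ∀ (B'' : S'.C) (h : B' ≤ B''), S'.dim (Y ⊓ B'') < d →
      ∃ (B₁ : S.C) (h₁ : B ≤ B₁), S.dim (Z ⊓ B₁) < d ∧ ∃ β : S'.O Y B'' i → S.O Z B₁ i,
        IsAdd β ∧ ∀ x, β (S'.res Y h i (α x)) = S.res Z h₁ i x

/-- Each class at the generic point of `H` is the residue of a class at the generic point of `X`, where
`H` has dimension `e` and `X` has dimension `e + 1`: for each class `x` of some `H ∖ B` there are closed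
subsets `B₁` (that contains `B` and does not contain `H`) and `D` (that contains `H`) and a class `y` of
`X ∖ D` whose boundary is equal to `x` on `D ∖ B₁ = H ∖ B₁`. If `H` is a hyperplane in the projective
space `X` then `D` is the union of `H`, a cone and another hyperplane, `X ∖ D` is the product of `H ∖ B₁`
with the multiplicative group, with coordinate `u`, and `y` is the product of `u` with the pull-back of
`x`. -/
def Residues (S : Strata) (X H : S.C) (e : ℤ) : Prop :=
  ∀ B : S.C, S.dim (H ⊓ B) < e → ∀ (i : ℤ) (x : S.O H B i),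
    ∃ (B₁ D : S.C) (h₁ : B ≤ B₁) (hD : H ≤ X ⊓ D), S.dim (H ⊓ B₁) < e ∧ S.dim (X ⊓ D) ≤ e ∧
      ∃ y : S.O X D (i + 1), S.j (X ⊓ D) B₁ i (S.del X D i y) = S.push hD B₁ i (S.res H h₁ i x)

/-- A family of schemes `Y t` of dimension `d t`, with the data of their closed subsets, and a set `R`
of indices. -/
structure Family where
  I : Type
  S : I → Strata
  Y : ∀ t, (S t).C
  d : I → ℤ
  R : I → Prop

/-- Properties of the family of all non-empty smooth projective schemes `Y t` of pure dimension over a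
finite field, where `R` is the set of projective spaces, and of their motivic homology
`M A i = CH_w(A, i - 2 w) ⊗ ℚ` in a fixed weight `w < 0`: each closed subset `Z` of `Y t` of dimension at
most `e` is dominated by a scheme `Y t'` of dimension `e` (alterations); there are projective spaces of
all dimensions, and their homology is zero (projective bundle formula, and the groups of a finite field
are torsion in the weights `-w + r > 0`); the residues for a hyperplane, which is a projective space;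
each `Y t` is dominated by a hypersurface in the projective space of dimension `d t + 1`; a closed subset
of dimension `e` dominates the projective space of dimension `e`; and `CH^a(K, b) = 0` for `b < a`, for
the fields `K` of rational functions. -/
structure IsUniverse (U : Family) (w : ℤ) : Prop where
  strata : ∀ t, IsStrata (U.S t)
  nonneg : ∀ t, 0 ≤ U.d t
  dim_eq : ∀ t, (U.S t).dim (U.Y t) = U.d t
  models : ∀ (t : U.I) (Z : (U.S t).C) (e : ℤ), Z ≤ U.Y t → 0 ≤ e → (U.S t).dim Z ≤ e →
    ∃ t' : U.I, U.d t' = e ∧ Dominates (U.S t') (U.Y t') (U.S t) Z e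
  space : ∀ e : ℤ, 0 ≤ e → ∃ n : U.I, U.R n ∧ U.d n = e
  space_zero : ∀ n : U.I, U.R n → ∀ (i : ℤ) (x : (U.S n).M (U.Y n) i), x = 0
  hyperplane : ∀ n n' : U.I, U.R n → U.R n' → U.d n' = U.d n + 1 → ∃ H : (U.S n').C,
    H ≤ U.Y n' ∧ (U.S n').dim H ≤ U.d n ∧ Dominates (U.S n') H (U.S n) (U.Y n) (U.d n) ∧
      Residues (U.S n') (U.Y n') H (U.d n)
  hypersurface : ∀ t n : U.I, U.R n → U.d n = U.d t + 1 → ∃ Z : (U.S n).C, Z ≤ U.Y n ∧
    (U.S n).dim Z ≤ U.d t ∧ Dominates (U.S n) Z (U.S t) (U.Y t) (U.d t)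
  noether : ∀ (t n : U.I) (Z : (U.S t).C), Z ≤ U.Y t → (U.S t).dim Z = U.d n → U.R n →
    Dominates (U.S t) Z (U.S n) (U.Y n) (U.d n)
  generic : ∀ (n : U.I) (s : ℤ), U.R n → s < U.d n + w → GenZero (U.S n) (U.Y n) (U.d n) s

/-- In the degrees `i ≤ s` the homology of all smooth projective schemes `Y t` of dimension at most `N`
is zero. -/
def ProjZero (U : Family) (N s : ℤ) : Prop :=
  ∀ t : U.I, U.d t ≤ N → ∀ i : ℤ, i ≤ s → ∀ x : (U.S t).M (U.Y t) i, x = 0

/-- In the degrees `i ≤ s` the homology of all schemes `Z` and `Z ∖ B`, where `Z` and `B` are closed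
subsets of schemes `Y t` and the dimension of `Z` is at most `N`, is zero. -/
def AllZero (U : Family) (N s : ℤ) : Prop :=
  ∀ (t : U.I) (Z : (U.S t).C), Z ≤ U.Y t → (U.S t).dim Z ≤ N → ∀ i : ℤ, i ≤ s →
    (∀ x : (U.S t).M Z i, x = 0) ∧ ∀ (B : (U.S t).C) (x : (U.S t).O Z B i), x = 0

/-- In the degrees `i ≤ s` the homology of the fields of rational functions of all varieties of
dimension at most `N` is zero. -/
def FieldsZero (U : Family) (N s : ℤ) : Prop :=
  ∀ (t : U.I) (Z : (U.S t).C) (e : ℤ), Z ≤ U.Y t → (U.S t).dim Z = e → 0 ≤ e → e ≤ N →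
    GenZero (U.S t) Z e s

/-- In the degrees `i ≤ s` the homology of all non-empty open subschemes of the projective space of
dimension `e` is zero. -/
def OpensZero (U : Family) (e s : ℤ) : Prop :=
  ∀ n : U.I, U.R n → U.d n = e → ∀ B : (U.S n).C, (U.S n).dim (U.Y n ⊓ B) < e →
    ∀ i : ℤ, i ≤ s → ∀ x : (U.S n).O (U.Y n) B i, x = 0

/-- In the degrees `i ≤ s` the homology of the field of rational functions in `e` variables over the
base field is zero. -/
def RationalZero (U : Family) (e s : ℤ) : Prop :=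
  ∀ n : U.I, U.R n → U.d n = e → GenZero (U.S n) (U.Y n) e s

/-- In the degrees `i ≤ s`, for the smooth projective schemes of dimension at most `N`. -/
def Bounded (U : Family) (w : ℤ) : Prop :=
  ∀ N s : ℤ, (ProjZero U N s ↔ AllZero U N s) ∧ (ProjZero U N s ↔ FieldsZero U N s) ∧
    (ProjZero U N s ↔ ∀ e : ℤ, 0 ≤ e → e ≤ N → OpensZero U (e + 1) (s + 1)) ∧
    (ProjZero U N s ↔ ∀ e : ℤ, 0 ≤ e → e ≤ N → e ≤ s - w → RationalZero U (e + 1) (s + 1))

/-- In all degrees, for the smooth projective schemes of dimension at most `N`: one field of rational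
functions, in `N + 1` variables, suffices, or the field of one variety `Z` of dimension `N + 1` (then the
dimension `N` on the right hand side is `e - 1`). -/
def OneField (U : Family) : Prop :=
  (∀ N : ℤ, (∀ s : ℤ, ProjZero U N s) ↔ ∀ s : ℤ, RationalZero U (N + 1) s) ∧
  (∀ (t : U.I) (Z : (U.S t).C) (e : ℤ), Z ≤ U.Y t → (U.S t).dim Z = e →
    (∀ s : ℤ, GenZero (U.S t) Z e s) → ∀ s : ℤ, ProjZero U (e - 1) s)

/-- For the smooth projective schemes of all dimensions: in the degrees `i ≤ s` the dimensions at most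
`s - w` suffice, and the fields of rational functions in at most `s - w + 1` variables; in all degrees,
one variety `Z` of arbitrarily large dimension `e` suffices. -/
def AllDimensions (U : Family) (w : ℤ) : Prop :=
  (∀ s : ℤ, ((∀ N : ℤ, ProjZero U N s) ↔ ProjZero U (s - w) s) ∧
    ((∀ N : ℤ, ProjZero U N s) ↔ ∀ e : ℤ, 0 ≤ e → e ≤ s - w → RationalZero U (e + 1) (s + 1))) ∧
  ((∀ N s : ℤ, ProjZero U N s) ↔ ∀ N : ℤ, ∃ (t : U.I) (Z : (U.S t).C) (e : ℤ), Z ≤ U.Y t ∧
    (U.S t).dim Z = e ∧ N ≤ e ∧ ∀ s : ℤ, GenZero (U.S t) Z e s)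

end Pool.Agent.K6.H28.NW
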