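import Pool.Agent.K6.H28.NW.IntDefs
import Pool.Agent.K6.H28.NW.Main

/-!
# Étale motivic homology with integral coefficients in a fixed negative weight: proofs
-/

set_option autoImplicit false

namespace Pool.Agent.K6.H28.NW

/-- A finitely generated group with quotients `G / l ^ k` of bounded order is a torsion group. -/
theorem torsion_of_fg {G : Type} [AddCommGroup G] (hG : AddGroup.FG G) {l : ℕ} (hl : 2 ≤ l)
    (hb : ∃ b : ℕ, ∀ (k : ℕ) (x : Fin (b + 1) → G),
      ∃ p q : Fin (b + 1), p ≠ q ∧ ∃ z, x p - x q = (l ^ k) • z) (x₀ : G) : IsTorsion x₀ := by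
  by_contra hx
  obtain ⟨b, hb⟩ := hb
  have : Module.Finite ℤ G := Module.Finite.iff_addGroup_fg.2 hG
  let Q := G ⧸ Submodule.torsion ℤ G
  let B := Module.Free.chooseBasis ℤ Q
  have h0 : (Submodule.mkQ (Submodule.torsion ℤ G) x₀) ≠ 0 := by
    intro h
    rw [Submodule.mkQ_apply, Submodule.Quotient.mk_eq_zero, Submodule.mem_torsion_iff] at h
    obtain ⟨a, ha⟩ := h
    apply hx
    have ha0 : (a : ℤ) ≠ 0 := nonZeroDivisors.ne_zero a.2
    refine ⟨(a : ℤ).natAbs, Int.natAbs_pos.2 ha0, ?_⟩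
    have ha' : (a : ℤ) • x₀ = 0 := ha
    rw [← natCast_zsmul]
    rcases Int.natAbs_eq (a : ℤ) with h | h
    · rw [← h, ha']
    · have : (((a : ℤ).natAbs : ℕ) : ℤ) = -(a : ℤ) := by omega
      rw [this, neg_smul, ha', neg_zero]
  obtain ⟨ι⟩ : Nonempty (Module.Free.ChooseBasisIndex ℤ Q) := by
    by_contra h
    rw [not_nonempty_iff] at h
    apply h0
    rw [← B.sum_repr (Submodule.mkQ (Submodule.torsion ℤ G) x₀)]
    exact Finset.sum_of_isEmpty _
  let f : G →ₗ[ℤ] ℤ := (B.coord ι).comp (Submodule.mkQ (Submodule.torsion ℤ G))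
  have hf : ∀ c : ℤ, ∃ g, f g = c := by
    intro c
    obtain ⟨g, hg⟩ := Submodule.mkQ_surjective (Submodule.torsion ℤ G) (c • B ι)
    refine ⟨g, ?_⟩
    change B.coord ι (Submodule.mkQ (Submodule.torsion ℤ G) g) = c
    rw [hg, map_smul, Module.Basis.coord_apply, Module.Basis.repr_self]
    simp
  choose g hg using hf
  obtain ⟨p, q, hpq, z, hz⟩ := hb (b + 1) fun r => g ((r : ℕ) : ℤ)
  have h1 := congrArg f hz
  rw [map_sub, hg, hg, map_nsmul, nsmul_eq_mul] at h1
  have h2 : b + 1 < l ^ (b + 1) := Nat.lt_pow_self hl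
  have hp := p.2
  have hq := q.2
  have h3 : f z = 0 := by
    by_contra hfz
    have h4 : (l ^ (b + 1) : ℤ) ≤ |((l ^ (b + 1) : ℕ) : ℤ) * f z| := by
      rw [abs_mul]
      have h5 : 1 ≤ |f z| := Int.one_le_abs hfz
      push_cast
      rw [abs_of_nonneg (by positivity)]
      exact le_mul_of_one_le_right (by positivity) h5
    rw [← h1] at h4
    have h6 : |((p : ℕ) : ℤ) - ((q : ℕ) : ℤ)| ≤ b := by
      rw [abs_le]
      constructor <;> omega
    have h7 : ((b : ℤ) + 1) < (l ^ (b + 1) : ℤ) := by exact_mod_cast h2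
    omega
  rw [h3, mul_zero] at h1
  exact hpq (Fin.ext (by omega))

variable {U : Family} {K : Integral U} {l : ℕ} (hl : 2 ≤ l) (hK : IsIntegral K l)

include hl hK

theorem zero_of_fg {t : U.I} {i : ℤ} (h : AddGroup.FG (K.G t i)) (y : (U.S t).M (U.Y t) i) :
    y = 0 := by
  obtain ⟨m, hm, x, hx⟩ := hK.span t i y
  rw [(hK.ker t i x).2 (torsion_of_fg h hl (hK.bounded t i) x)] at hx
  exact hK.free t i y ⟨m, hm, hx.symm⟩

omit hl in
theorem finite_of_zero {t : U.I} {i : ℤ} (h : ∀ y : (U.S t).M (U.Y t) i, y = 0) :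
    Finite (K.G t i) := by
  have h1 : {x : K.G t i | IsTorsion x} = Set.univ :=
    Set.eq_univ_of_forall fun x => (hK.ker t i x).1 (h _)
  have h2 := hK.torsion t i
  rw [h1] at h2
  exact Set.finite_univ_iff.1 h2

omit hl hK in
theorem fg_of_finite {t : U.I} {i : ℤ} (h : Finite (K.G t i)) : AddGroup.FG (K.G t i) :=
  inferInstance

theorem fgTo_iff (N s : ℤ) : FGTo K N s ↔ ProjZero U N s :=
  ⟨fun h t ht i hi x => zero_of_fg hl hK (h t ht i hi) x,
    fun h t ht i hi => fg_of_finite (finite_of_zero hK fun y => h t ht i hi y)⟩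

theorem finiteTo_iff (N s : ℤ) : FiniteTo K N s ↔ ProjZero U N s :=
  ⟨fun h t ht i hi x => zero_of_fg hl hK (fg_of_finite (h t ht i hi)) x,
    fun h t ht i hi => finite_of_zero hK fun y => h t ht i hi y⟩

variable {w : ℤ} (hU : IsUniverse U w)

include hU

theorem fgBounded : FGBounded K w := fun N s =>
  ⟨(fgTo_iff hl hK N s).trans (finiteTo_iff hl hK N s).symm,
    (fgTo_iff hl hK N s).trans (bounded hU N s).2.2.2⟩

theorem fgOneField : FGOneField K := by
  refine ⟨fun N => ?_, fun t Z e hZ hd h s => (fgTo_iff hl hK _ _).2 ((oneField hU).2 t Z e hZ hd h s)⟩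
  rw [← (oneField hU).1 N]
  exact forall_congr' fun s => fgTo_iff hl hK N s

theorem fgAllDimensions : FGAllDimensions K w := by
  refine ⟨fun s => ?_, ?_⟩
  · rw [fgTo_iff hl hK, ← ((allDimensions hU).1 s).1]
    exact forall_congr' fun N => fgTo_iff hl hK N s
  · rw [← (allDimensions hU).2]
    exact forall_congr' fun N => forall_congr' fun s => fgTo_iff hl hK N s

end Pool.Agent.K6.H28.NW
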