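import Pool.Agent.K6.H28.NW.Defs

/-!
# Étale motivic homology with integral coefficients in a fixed negative weight: definitions
-/

set_option autoImplicit false

namespace Pool.Agent.K6.H28.NW

/-- Groups `G t i` (the étale motivic homology of the scheme `Y t` with integral coefficients) with maps
to the homology with rational coefficients. -/
structure Integral (U : Family) where
  G : U.I → ℤ → Type
  [grp : ∀ t i, AddCommGroup (G t i)]
  rat : ∀ (t : U.I) (i : ℤ), G t i → (U.S t).M (U.Y t) i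

attribute [instance] Integral.grp

/-- The element `x` is a torsion element. -/
def IsTorsion {G : Type} [AddCommGroup G] (x : G) : Prop := ∃ m : ℕ, 0 < m ∧ m • x = 0

/-- Properties of the groups `G t i = H_i^c((Y t)_ét, ℤ(w)) = H^(-i)((Y t)_ét, ℤ^c(w))` for smooth
projective schemes over a finite field, a prime `l` invertible in the field and `w < 0`: the rational
homology is torsion free, the kernel of `rat` is the torsion subgroup and `rat` generates the rational
homology; the torsion subgroup is finite (a quotient of a group with coefficients `ℚ/ℤ(w)`, finite by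
Deligne and Gabber); the orders of the groups `G / l ^ k` are bounded (they are contained in the groups
with coefficients `ℤ/l ^ k (w)`, whose orders are bounded, by the weights). -/
structure IsIntegral {U : Family} (K : Integral U) (l : ℕ) : Prop where
  add : ∀ (t : U.I) (i : ℤ), IsAdd (K.rat t i)
  free : ∀ (t : U.I) (i : ℤ) (y : (U.S t).M (U.Y t) i), IsTorsion y → y = 0
  ker : ∀ (t : U.I) (i : ℤ) (x : K.G t i), K.rat t i x = 0 ↔ IsTorsion x
  span : ∀ (t : U.I) (i : ℤ) (y : (U.S t).M (U.Y t) i), ∃ m : ℕ, 0 < m ∧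
    ∃ x, K.rat t i x = m • y
  torsion : ∀ (t : U.I) (i : ℤ), {x : K.G t i | IsTorsion x}.Finite
  bounded : ∀ (t : U.I) (i : ℤ), ∃ b : ℕ, ∀ (k : ℕ) (x : Fin (b + 1) → K.G t i),
    ∃ p q : Fin (b + 1), p ≠ q ∧ ∃ z, x p - x q = (l ^ k) • z

/-- The groups `G t i` are finitely generated, in the degrees `i ≤ s`, for all smooth projective schemes
`Y t` of dimension at most `N`. -/
def FGTo {U : Family} (K : Integral U) (N s : ℤ) : Prop :=
  ∀ t : U.I, U.d t ≤ N → ∀ i : ℤ, i ≤ s → AddGroup.FG (K.G t i)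

/-- These groups are finite. -/
def FiniteTo {U : Family} (K : Integral U) (N s : ℤ) : Prop :=
  ∀ t : U.I, U.d t ≤ N → ∀ i : ℤ, i ≤ s → Finite (K.G t i)

/-- In the degrees `i ≤ s`, in terms of fields of rational functions. -/
def FGBounded {U : Family} (K : Integral U) (w : ℤ) : Prop :=
  ∀ N s : ℤ, (FGTo K N s ↔ FiniteTo K N s) ∧
    (FGTo K N s ↔ ∀ e : ℤ, 0 ≤ e → e ≤ N → e ≤ s - w → RationalZero U (e + 1) (s + 1))

/-- In all degrees: the field of rational functions in `N + 1` variables suffices, or the field of one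
variety `Z` of dimension `e = N + 1`. -/
def FGOneField {U : Family} (K : Integral U) : Prop :=
  (∀ N : ℤ, (∀ s : ℤ, FGTo K N s) ↔ ∀ s : ℤ, RationalZero U (N + 1) s) ∧
  (∀ (t : U.I) (Z : (U.S t).C) (e : ℤ), Z ≤ U.Y t → (U.S t).dim Z = e →
    (∀ s : ℤ, GenZero (U.S t) Z e s) → ∀ s : ℤ, FGTo K (e - 1) s)

/-- For the smooth projective schemes of all dimensions. -/
def FGAllDimensions {U : Family} (K : Integral U) (w : ℤ) : Prop :=
  (∀ s : ℤ, (∀ N : ℤ, FGTo K N s) ↔ FGTo K (s - w) s) ∧
  ((∀ N s : ℤ, FGTo K N s) ↔ ∀ N : ℤ, ∃ (t : U.I) (Z : (U.S t).C) (e : ℤ), Z ≤ U.Y t ∧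
    (U.S t).dim Z = e ∧ N ≤ e ∧ ∀ s : ℤ, GenZero (U.S t) Z e s)

end Pool.Agent.K6.H28.NW
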