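import Pool.Agent.K6.H28.NW.StrongDefs
import Pool.Agent.K6.H28.NW.All

/-!
# The conjectures of Tate and Beilinson in all degrees: proofs
-/

set_option autoImplicit false
set_option linter.unusedVariables false

namespace Pool.Agent.K6.H28.NW.All

variable {U : Family} {k : ℤ} {D : ∀ t, Triangle (U.S t)} {Φ : ∀ t, Frobenius (D t)}

theorem surj_iff (hD : IsRegulator U k D Φ) (t : U.I) (A B : (U.S t).C) (i : ℤ) :
    TateAt (Φ t) A B i ↔ Function.Surjective ((D t).f A B i) := by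
  constructor
  · exact fun h y => h.2 y (h.1 y)
  · intro h
    refine ⟨fun y => ?_, fun y _ => h y⟩
    obtain ⟨x, rfl⟩ := h y
    exact hD.fixed t A B i x

theorem tb_iff (hS : ∀ t, IsStrata (U.S t)) (hD : IsRegulator U k D Φ) (t : U.I) :
    (TateAt (Φ t) (U.Y t) ⊥ (2 * k) ∧ BeilinsonAt (D t) (U.Y t) ⊥ (2 * k) ∧
      ∀ i : ℤ, i ≠ 2 * k → ∀ x : (D t).H (U.Y t) ⊥ i, x = 0) ↔
      ∀ (i : ℤ) (x : (U.S t).M (U.Y t) i), x = 0 := by
  rw [closed_iff (hS t), bij_iff (hD.triangle t), surj_iff hD]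
  constructor
  · rintro ⟨h1, h2, h3⟩ i
    rcases eq_or_ne i (2 * k) with rfl | hi
    · exact ⟨h2, h1⟩
    · exact ⟨fun x y _ => (h3 i hi x).trans (h3 i hi y).symm,
        fun y => ⟨0, by rw [((hD.triangle t).add_f _ _ _).map_zero, hD.pure t i hi y]⟩⟩
  · intro h
    refine ⟨(h _).2, (h _).1, fun i hi x => ?_⟩
    exact (h i).1 ((hD.pure t i hi _).trans (hD.pure t i hi _).symm)

variable (hU : IsWorld U) (hD : IsRegulator U k D Φ)

include hU hD

theorem tbTo_iff (N : ℤ) : TBTo U k D Φ N ↔ ∀ s : ℤ, ProjZero U N s :=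
  ⟨fun h s t ht i _ x => (tb_iff hU.strata hD t).1 (h t ht) i x,
    fun h t ht => (tb_iff hU.strata hD t).2 fun i x => h i t ht i le_rfl x⟩

theorem closed_of_tb {N : ℤ} (h : TBTo U k D Φ N) (s : ℤ) : ClosedZero U N s :=
  closed_of_proj hU ((tbTo_iff hU hD N).1 h s)

theorem tb_of_closed {N : ℤ} (h : ∀ s, ClosedZero U N s) : TBTo U k D Φ N :=
  (tbTo_iff hU hD N).2 fun s => proj_of_closed hU (h s)

theorem all_of_tb {N : ℤ} (h : TBTo U k D Φ N) : TBAllTo U D Φ N := by
  intro t Z B hZ hd i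
  have h1 := (bij_iff (hD.triangle t) Z B).1 (fun i c =>
    (all_of_closed hU (closed_of_tb hU hD h i) t Z hZ hd i le_rfl).2 B c) i
  exact ⟨(surj_iff hD t Z B i).2 h1.2, h1.1⟩

theorem tb_of_all {N : ℤ} (h : TBAllTo U D Φ N) : TBTo U k D Φ N := by
  intro t ht
  have h1 := h t (U.Y t) ⊥ le_rfl (by rw [hU.dim_eq]; exact ht)
  exact ⟨(h1 _).1, (h1 _).2, fun i hi x =>
    (h1 i).2 ((hD.pure t i hi _).trans (hD.pure t i hi _).symm)⟩

theorem strongForm : StrongForm U k D Φ := by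
  have h3 : ∀ (t : U.I) (Z : (U.S t).C) (e : ℤ), Z ≤ U.Y t → (U.S t).dim Z = e →
      GenIso (D t) Z e → TBTo U k D Φ (e - 1) := by
    intro t Z e hZ hd h
    rw [gen_iff (hU.strata t) (hD.triangle t)] at h
    refine tb_of_closed hU hD (closed_of_one hU fun s => ?_)
    rw [sub_add_cancel]
    exact rational_of_variety hU hZ hd (h s)
  refine ⟨fun N => ⟨all_of_tb hU hD, tb_of_all hU hD⟩, fun N => ⟨?_, ?_⟩, h3, ?_⟩
  · intro h n hn hd
    rw [gen_iff (hU.strata n) (hD.triangle n)]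
    intro s
    have := rational_of_closed hU (closed_of_tb hU hD h (s - 1)) n hn hd
    rwa [sub_add_cancel] at this
  · intro h
    refine tb_of_closed hU hD (closed_of_one hU fun s n hn hd => ?_)
    exact (gen_iff (hU.strata n) (hD.triangle n) _ _).1 (h n hn hd) s
  · constructor
    · intro h N
      obtain ⟨n, hn, hd⟩ := hU.space (max N 0) (le_max_right _ _)
      refine ⟨n, U.Y n, max N 0, le_rfl, (hU.dim_eq n).trans hd, le_max_left _ _, ?_⟩
      rw [gen_iff (hU.strata n) (hD.triangle n)]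
      intro s
      refine gen_of_open (hU.strata n) fun B _ i _ x => ?_
      exact (all_of_closed hU (closed_of_tb hU hD (h (max N 0)) i) n _ le_rfl
        (by rw [hU.dim_eq, hd]) i le_rfl).2 B x
    · intro h N t ht
      obtain ⟨t', Z, e, hZ, hd, hN, hG⟩ := h (N + 1)
      exact h3 t' Z e hZ hd hG t (by omega)

end Pool.Agent.K6.H28.NW.All
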