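import Pool.Agent.K6.H28.NW.AllDefs

/-!
# The conjectures of Tate and Beilinson in all degrees: definitions
-/

set_option autoImplicit false

namespace Pool.Agent.K6.H28.NW

/-- An operator `φ` (the Frobenius) on the groups `W A B i`. -/
structure Frobenius {S : Strata} (D : Triangle S) where
  φ : ∀ (A B : S.C) (i : ℤ), D.W A B i → D.W A B i

/-- `H A B i` is the motivic homology `CH_k(A ∖ B, i - 2 k)` with coefficients in `ℚ_ℓ`, `W A B i` is the
generalised eigenspace for the eigenvalue one of the Frobenius `φ` on the `ℓ`-adic homology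
`H_i(A ∖ B, ℚ_ℓ(k))`, the map `f` (the cycle class map, the regulator) has image in the fixed elements, and
`W_i(Y t) = 0` for the smooth projective schemes `Y t = Y t ∖ ∅` and `i ≠ 2 k` (weights, Deligne). -/
structure IsRegulator (U : Family) (k : ℤ) (D : ∀ t, Triangle (U.S t))
    (Φ : ∀ t, Frobenius (D t)) : Prop where
  triangle : ∀ t, IsTriangle (D t)
  nilpotent : ∀ (t : U.I) (A B : (U.S t).C) (i : ℤ) (y : (D t).W A B i),
    ∃ r : ℕ, (fun z => (Φ t).φ A B i z - z)^[r] y = 0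
  fixed : ∀ (t : U.I) (A B : (U.S t).C) (i : ℤ) (x : (D t).H A B i),
    (Φ t).φ A B i ((D t).f A B i x) = (D t).f A B i x
  pure : ∀ (t : U.I) (i : ℤ), i ≠ 2 * k → ∀ y : (D t).W (U.Y t) ⊥ i, y = 0

/-- The eigenvalue one of the Frobenius is semisimple, and each Frobenius invariant class is a
combination of motivic classes. -/
def TateAt {S : Strata} {D : Triangle S} (Φ : Frobenius D) (A B : S.C) (i : ℤ) : Prop :=
  (∀ y : D.W A B i, Φ.φ A B i y = y) ∧
    ∀ y : D.W A B i, Φ.φ A B i y = y → ∃ x, D.f A B i x = y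

/-- The cycle class map (the regulator) is injective. -/
def BeilinsonAt {S : Strata} (D : Triangle S) (A B : S.C) (i : ℤ) : Prop :=
  Function.Injective (D.f A B i)

/-- For all smooth projective schemes `Y t` of dimension at most `N` and cycles of dimension `k`: the
conjectures of Tate and Beilinson, semisimplicity of the eigenvalue one, and the conjecture of Parshin. -/
def TBTo (U : Family) (k : ℤ) (D : ∀ t, Triangle (U.S t)) (Φ : ∀ t, Frobenius (D t)) (N : ℤ) :
    Prop :=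
  ∀ t : U.I, U.d t ≤ N → TateAt (Φ t) (U.Y t) ⊥ (2 * k) ∧ BeilinsonAt (D t) (U.Y t) ⊥ (2 * k) ∧
    ∀ i : ℤ, i ≠ 2 * k → ∀ x : (D t).H (U.Y t) ⊥ i, x = 0

/-- The same in all degrees `i` for all schemes `Z ∖ B`, where `Z` and `B` are closed subsets of schemes
`Y t` and `Z` has dimension at most `N`. -/
def TBAllTo (U : Family) (D : ∀ t, Triangle (U.S t)) (Φ : ∀ t, Frobenius (D t)) (N : ℤ) : Prop :=
  ∀ (t : U.I) (Z B : (U.S t).C), Z ≤ U.Y t → (U.S t).dim Z ≤ N → ∀ i : ℤ,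
    TateAt (Φ t) Z B i ∧ BeilinsonAt (D t) Z B i

/-- The conjectures in terms of fields of rational functions. -/
def StrongForm (U : Family) (k : ℤ) (D : ∀ t, Triangle (U.S t)) (Φ : ∀ t, Frobenius (D t)) :
    Prop :=
  (∀ N : ℤ, TBTo U k D Φ N ↔ TBAllTo U D Φ N) ∧
  (∀ N : ℤ, TBTo U k D Φ N ↔ ∀ n : U.I, U.R n → U.d n = N + 1 → GenIso (D n) (U.Y n) (N + 1)) ∧
  (∀ (t : U.I) (Z : (U.S t).C) (e : ℤ), Z ≤ U.Y t → (U.S t).dim Z = e → GenIso (D t) Z e →
    TBTo U k D Φ (e - 1)) ∧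
  ((∀ N : ℤ, TBTo U k D Φ N) ↔ ∀ N : ℤ, ∃ (t : U.I) (Z : (U.S t).C) (e : ℤ), Z ≤ U.Y t ∧
    (U.S t).dim Z = e ∧ N ≤ e ∧ GenIso (D t) Z e)

end Pool.Agent.K6.H28.NW
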